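import Pool.Agent.H300Z.Modal.NoInt

set_option autoImplicit false

namespace Pool.Agent.Results.MP_e3277b_lc.AStrongNoCriterion

open Pool.Agent.H300Z.Modal

universe u

/-- There is a strongly Kripke complete normal unimodal logic that lacks the Kripke criterion. -/
theorem result : ∃ L : Set Fm, IsNormal L ∧ StronglyComplete.{u} L ∧ ¬ KripkeCriterion.{u} L :=
  ⟨SC.L, SC.normal, SC.strong, SC.not_criterion⟩

end Pool.Agent.Results.MP_e3277b_lc.AStrongNoCriterion
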