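import Pool.Agent.H300Z.Modal.GL

set_option autoImplicit false

namespace Pool.Agent.Results.MP_e3277b_lc.BCriterionNotStrong

open Pool.Agent.H300Z.Modal

universe u

/-- There is a normal unimodal logic that has the Kripke criterion and is not strongly Kripke
complete. -/
theorem result : ∃ L : Set Fm, IsNormal L ∧ KripkeCriterion.{u} L ∧ ¬ StronglyComplete.{u} L :=
  ⟨GL.L, GL.normal, GL.criterion, GL.not_strong⟩

end Pool.Agent.Results.MP_e3277b_lc.BCriterionNotStrong
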